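import Pool.Agent.X59.HG.Model

set_option autoImplicit false

/-!
# Intersection graphs of connected subgraphs of subdivisions of one fixed graph can be universal

Negative answer to Q1: for `Y = K_{2,6}` with a pendant path of length two attached at a vertex of
degree six, every finite group is the automorphism group of a graph in the class of `Y`.
-/

namespace Pool.Agent.Results.MP_f0827e_co.Universal

open Pool.Agent.X59.HG

/-- There is a finite graph `Y` such that every finite group `Γ` is isomorphic to the automorphism
group of a finite graph `G` that is the intersection graph of a family of connected subgraphs of a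
subdivision of `Y`. -/
theorem result : ∃ (m : ℕ) (Y : SimpleGraph (Fin m)),
    ∀ (Γ : Type) [Group Γ] [Finite Γ],
      ∃ (V : Type) (_ : Finite V) (G : SimpleGraph V),
        InClass Y G ∧ Nonempty (Γ ≃* (G ≃g G)) :=
  Pool.Agent.X59.HG.main

end Pool.Agent.Results.MP_f0827e_co.Universal
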